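import Pool.Agent.Q15.BM.A5

/-! # MP_f3bb61_al: the ai-semiring `B_2^1` is inherently nonfinitely based

Signature `{+, ·}`, no constants; terms, identities and subalgebras are those of this signature. -/

namespace Pool.Agent.Results.MP_f3bb61_al.BrandtMonoidINFB

open Pool.Agent.Q15.BM

/-- The algebra `A` is inherently nonfinitely based: every locally finite variety of algebras of
signature `{+, ·}` (the class of all algebras satisfying a set `E` of identities) which contains
`A` has no finite basis of identities. -/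
def InherentlyNonfinitelyBased (A : Type) [Add A] [Mul A] : Prop :=
  ∀ E : Set Identity, Sat A E →
    (∀ (B : Type) [Add B] [Mul B], Sat B E → LocallyFinite B) →
    ¬ ∃ E₀ : Set Identity, E₀.Finite ∧ ∀ (B : Type) [Add B] [Mul B], (Sat B E₀ ↔ Sat B E)

/-- The same inside the class of ai-semirings: every locally finite variety of ai-semirings which
contains `A` cannot be defined, among ai-semirings, by finitely many identities. -/
def InherentlyNonfinitelyBasedAi (A : Type) [Add A] [Mul A] : Prop :=
  ∀ E : Set Identity, Sat A E →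
    (∀ (B : Type) [Add B] [Mul B], AiSemiring B → Sat B E → LocallyFinite B) →
    ¬ ∃ E₀ : Set Identity, E₀.Finite ∧
      ∀ (B : Type) [Add B] [Mul B], AiSemiring B → (Sat B E₀ ↔ Sat B E)

/-- The ai-semiring `B_2^1` is inherently nonfinitely based. -/
theorem result :
    AiSemiring B21 ∧ InherentlyNonfinitelyBased B21 ∧ InherentlyNonfinitelyBasedAi B21 := by
  refine ⟨B21.aiSemiring, ?_, ?_⟩
  · rintro E hE hlf ⟨E₀, hfin, h0⟩
    obtain ⟨A, _, _, -, hA2, hA3⟩ := main E₀ hfin ((h0 B21).2 hE)
    exact hA3 (hlf A ((h0 A).1 hA2))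
  · rintro E hE hlf ⟨E₀, hfin, h0⟩
    obtain ⟨A, _, _, hA1, hA2, hA3⟩ := main E₀ hfin ((h0 B21 B21.aiSemiring).2 hE)
    exact hA3 (hlf A hA1 ((h0 A hA1).1 hA2))

end Pool.Agent.Results.MP_f3bb61_al.BrandtMonoidINFB
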